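import Pool.Agent.H7.LD.Stmts
import Pool.Agent.H40.HZ.CQB

/-!
Row CQBW of the board `jb14` (MP_fd41b2_co): the triangles which leave the block are paid for
(the row CQB of the board `hz12` with the weak conditions).
-/

set_option autoImplicit false

open Finset

namespace Pool.LD7

open Pool.Agent.H23.KT Pool.Agent.H46.KW Pool.KQ Pool.GT7 Pool.GU7 Pool.HZ7 Pool.IA7

theorem CQBW_thm (hZ : ZYGStmt) : CQBWStmt := by
  intro p r hp C hC
  obtain ⟨a₀, ha₀⟩ := exists_nat_ge ((200 * ((p : ℝ) + 5) * C + C) * (200 * ((p : ℝ) + 5)) + 1)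
  refine ⟨a₀, ?_⟩
  intro a ha V _ _ G Q hG hB hcd hd4 hD
  have hp3 : 2 ≤ p := hp.p2
  have hp3' : (2 : ℝ) ≤ (p : ℝ) := by exact_mod_cast hp3
  have haR : ((200 * ((p : ℝ) + 5) * C + C) * (200 * ((p : ℝ) + 5)) + 1) ≤ (a : ℝ) :=
    ha₀.trans (by exact_mod_cast ha)
  set S := un Q with hS
  set Pr : ℝ := (p : ℝ) + 5 with hPr
  have hPr0 : 0 < Pr := by rw [hPr]; linarith
  set Z0 : ℝ := 200 * Pr * C with hZ0
  have hZ00 : 0 < Z0 := by rw [hZ0]; positivity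
  have ha1 : (1 : ℝ) ≤ a := by
    have : 0 ≤ (Z0 + C) * (200 * Pr) := by positivity
    linarith
  have ha0 : (0 : ℝ) < a := by linarith
  have hlarge : Z0 + C ≤ a / (200 * Pr) := by
    rw [le_div_iff₀ (by positivity)]
    linarith
  -- the exceptional set
  set Z : Finset V := S.filter (fun z => (a : ℝ) / (200 * Pr) ≤ (dl G p r a S z : ℝ)) with hZd
  have hZS : Z ⊆ S := filter_subset _ _
  set δ : V → ℝ := fun z => (dl G p r a S z : ℝ) with hδ
  have hδ0 : ∀ z, 0 ≤ δ z := fun z => Nat.cast_nonneg _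
  have hcδ : ∀ z ∈ S, ((nb G (univ \ S) z).card : ℝ) ≤ δ z := by
    intro z hz
    show ((nb G (univ \ S) z).card : ℝ) ≤ (dl G p r a S z : ℝ)
    exact_mod_cast hcd z hz
  have hDsum : ∑ u ∈ S, δ u ≤ C * a := by
    have : ((∑ u ∈ S, dl G p r a S u : ℕ) : ℝ) = ∑ u ∈ S, δ u := by push_cast; rfl
    rw [← this]
    exact hD
  have hsplit : ∑ u ∈ S, δ u = ∑ u ∈ S \ Z, δ u + ∑ u ∈ Z, δ u :=
    (sum_sdiff hZS).symm
  have hDN0 : 0 ≤ ∑ u ∈ S \ Z, δ u := sum_nonneg fun z _ => hδ0 z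
  have hDZ0 : 0 ≤ ∑ u ∈ Z, δ u := sum_nonneg fun z _ => hδ0 z
  have hZc : (Z.card : ℝ) ≤ Z0 := by
    have h1 : (Z.card : ℝ) * (a / (200 * Pr)) ≤ ∑ u ∈ Z, δ u := by
      rw [← nsmul_eq_mul]
      exact card_nsmul_le_sum Z δ _ (fun z hz => (mem_filter.1 hz).2)
    have h2 : (Z.card : ℝ) * (a / (200 * Pr)) ≤ C * a := by linarith
    have h3 : (Z.card : ℝ) * a ≤ C * a * (200 * Pr) := by
      rw [← mul_div_assoc, div_le_iff₀ (by positivity)] at h2
      exact h2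
    have h4 : (Z.card : ℝ) * a ≤ Z0 * a := by
      rw [hZ0]
      linarith
    exact le_of_mul_le_mul_right h4 ha0
  -- first part
  have hT1 : ∑ z ∈ S, (((nb G (univ \ S) z).card).choose 2 : ℝ) +
      ∑ u ∈ S, ((dl G p r a S u : ℝ) * (dl G p r a S u - 1)) / 2 ≤
      a / (200 * Pr) * ∑ u ∈ S \ Z, δ u + a / 4 * ∑ u ∈ Z, δ u := by
    rw [← sum_add_distrib, ← sum_sdiff hZS, mul_sum, mul_sum]
    have hpt : ∀ z ∈ S, (((nb G (univ \ S) z).card).choose 2 : ℝ) +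
        ((dl G p r a S z : ℝ) * (dl G p r a S z - 1)) / 2 ≤ δ z * δ z := by
      intro z hz
      have h1 : (((nb G (univ \ S) z).card).choose 2 : ℝ) ≤ ((dl G p r a S z).choose 2 : ℝ) := by
        exact_mod_cast Nat.choose_le_choose 2 (hcd z hz)
      have h4 : ((dl G p r a S z).choose 2 : ℝ) =
          (dl G p r a S z : ℝ) * ((dl G p r a S z : ℝ) - 1) / 2 := Nat.cast_choose_two ℝ _
      rw [h4] at h1
      have h2 : 0 ≤ δ z := hδ0 z
      have h3 : δ z = (dl G p r a S z : ℝ) := rfl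
      rw [h3] at h2 ⊢
      linarith
    refine add_le_add (sum_le_sum fun z hz => ?_) (sum_le_sum fun z hz => ?_)
    · have hzS := (mem_sdiff.1 hz).1
      refine (hpt z hzS).trans (mul_le_mul_of_nonneg_right ?_ (hδ0 z))
      have : ¬ (a : ℝ) / (200 * Pr) ≤ (dl G p r a S z : ℝ) := fun h =>
        (mem_sdiff.1 hz).2 (mem_filter.2 ⟨hzS, h⟩)
      exact (not_le.1 this).le
    · exact (hpt z (hZS hz)).trans (mul_le_mul_of_nonneg_right (hd4 z (hZS hz)) (hδ0 z))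
  -- second part
  set A1 : ℝ := ((p : ℝ) + 2) / 2 * a * (1 - 1 / (32 * Pr) / ((p : ℝ) + 3)) + Z0 with hA1
  have hq : ∀ q ∈ univ \ S, (kc G (nb G S q) 2 : ℝ) ≤
      A1 * ((nb G (S \ Z) q).card : ℝ) + Z0 * ((nb G Z q).card : ℝ) := by
    intro q hqS
    have hqS' : q ∉ S := (mem_sdiff.1 hqS).2
    have hun : nb G S q = nb G (S \ Z) q ∪ nb G Z q := by
      ext z
      rw [mem_union, mem_nb, mem_nb, mem_nb, mem_sdiff]
      constructor
      · rintro ⟨h1, h2⟩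
        by_cases h3 : z ∈ Z
        · exact Or.inr ⟨h3, h2⟩
        · exact Or.inl ⟨⟨h1, h3⟩, h2⟩
      · rintro (⟨⟨h1, -⟩, h2⟩ | ⟨h1, h2⟩)
        · exact ⟨h1, h2⟩
        · exact ⟨hZS h1, h2⟩
    have h1 := CQB_union G (nb G (S \ Z) q) (nb G Z q)
    have h2 : (nb G (S \ Z) q ∪ nb G Z q).card ≤ (nb G (S \ Z) q).card + (nb G Z q).card :=
      card_union_le _ _
    rw [← hun] at h1 h2
    have hCB : CB G (nb G (S \ Z) q) (p + 3) := by
      have h3 : CB G (nb G univ q) (p + 3) := CB.nb hG.cb (mem_univ q)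
      refine h3.mono ?_
      intro z hz
      rw [mem_nb] at hz ⊢
      exact ⟨mem_univ z, hz.2⟩
    have h3 := hZ G (p + 3) (nb G (S \ Z) q) hCB 2
    rw [Nat.cast_choose_two] at h3
    obtain ⟨ν, hν⟩ : ∃ ν : ℝ, ν = ((nb G (S \ Z) q).card : ℝ) := ⟨_, rfl⟩
    obtain ⟨ζ, hζ⟩ : ∃ ζ : ℝ, ζ = ((nb G Z q).card : ℝ) := ⟨_, rfl⟩
    rw [← hν] at h3
    have hν0 : 0 ≤ ν := by rw [hν]; exact Nat.cast_nonneg _
    have hζ0 : 0 ≤ ζ := by rw [hζ]; exact Nat.cast_nonneg _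
    have hζZ : ζ ≤ Z0 := by
      refine le_trans ?_ hZc
      rw [hζ]
      exact_mod_cast card_le_card (nb_subset G Z q)
    have hνb : ν ≤ ((p : ℝ) + 3 - 1 / (32 * Pr)) * a := by
      refine le_trans ?_ (hB.out q hqS')
      rw [hν]
      exact_mod_cast card_le_card (show nb G (S \ Z) q ⊆ nb G S q by
        rw [hun]
        exact subset_union_left)
    have h1' : (kc G (nb G S q) 2 : ℝ) ≤ (kc G (nb G (S \ Z) q) 2 : ℝ) + ζ * (ν + ζ) := by
      have h4 : kc G (nb G S q) 2 ≤ kc G (nb G (S \ Z) q) 2 +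
          (nb G Z q).card * ((nb G (S \ Z) q).card + (nb G Z q).card) :=
        h1.trans (Nat.add_le_add_left (Nat.mul_le_mul_left _ h2) _)
      rw [hν, hζ]
      exact_mod_cast h4
    have h3' : (kc G (nb G (S \ Z) q) 2 : ℝ) ≤ ((p : ℝ) + 2) / (2 * ((p : ℝ) + 3)) * ν ^ 2 := by
      refine h3.trans (le_of_eq ?_)
      have hp0 : ((p : ℝ) + 3) ≠ 0 := by positivity
      push_cast
      field_simp
      ring
    have h5 : ((p : ℝ) + 2) / (2 * ((p : ℝ) + 3)) * ν ^ 2 ≤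
        ((p : ℝ) + 2) / 2 * a * (1 - 1 / (32 * Pr) / ((p : ℝ) + 3)) * ν := by
      have h6 : ((p : ℝ) + 2) / (2 * ((p : ℝ) + 3)) * ν ^ 2 ≤
          ((p : ℝ) + 2) / (2 * ((p : ℝ) + 3)) * ((((p : ℝ) + 3 - 1 / (32 * Pr)) * a) * ν) := by
        refine mul_le_mul_of_nonneg_left ?_ (by positivity)
        rw [pow_two]
        exact mul_le_mul_of_nonneg_right hνb hν0
      refine h6.trans (le_of_eq ?_)
      have hp0 : ((p : ℝ) + 3) ≠ 0 := by positivity
      have hP0 : Pr ≠ 0 := hPr0.ne'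
      field_simp
    have h7 : ζ * (ν + ζ) ≤ Z0 * ν + Z0 * ζ := by
      rw [← mul_add]
      exact mul_le_mul_of_nonneg_right hζZ (by positivity)
    rw [hA1, ← hν, ← hζ]
    nlinarith
  have hT2 : ∑ q ∈ univ \ S, (kc G (nb G S q) 2 : ℝ) ≤
      A1 * ∑ u ∈ S \ Z, δ u + Z0 * ∑ u ∈ Z, δ u := by
    have hA10 : 0 ≤ A1 := by
      have : 1 / (32 * Pr) / ((p : ℝ) + 3) ≤ 1 := by
        rw [div_div, div_le_one (by positivity)]
        nlinarith
      have h8 : 0 ≤ 1 - 1 / (32 * Pr) / ((p : ℝ) + 3) := by linarith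
      rw [hA1]
      positivity
    refine (sum_le_sum hq).trans ?_
    rw [sum_add_distrib, ← mul_sum, ← mul_sum]
    have e1 : ∑ q ∈ univ \ S, ((nb G (S \ Z) q).card : ℝ) ≤ ∑ u ∈ S \ Z, δ u := by
      have h9 := CQB_double G (univ \ S) (S \ Z)
      have h10 : ∑ q ∈ univ \ S, ((nb G (S \ Z) q).card : ℝ) =
          ∑ z ∈ S \ Z, ((nb G (univ \ S) z).card : ℝ) := by exact_mod_cast h9
      rw [h10]
      exact sum_le_sum fun z hz => hcδ z (mem_sdiff.1 hz).1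
    have e2 : ∑ q ∈ univ \ S, ((nb G Z q).card : ℝ) ≤ ∑ u ∈ Z, δ u := by
      have h9 := CQB_double G (univ \ S) Z
      have h10 : ∑ q ∈ univ \ S, ((nb G Z q).card : ℝ) =
          ∑ z ∈ Z, ((nb G (univ \ S) z).card : ℝ) := by exact_mod_cast h9
      rw [h10]
      exact sum_le_sum fun z hz => hcδ z (hZS hz)
    exact add_le_add (mul_le_mul_of_nonneg_left e1 hA10) (mul_le_mul_of_nonneg_left e2 hZ00.le)
  -- the brackets
  have hb1 : a / (200 * Pr) + A1 + (a / (400 * Pr) + C) ≤ ((p : ℝ) + 2) / 2 * a := by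
    have h1 : (1 / 80 : ℝ) * (a / Pr) ≤ ((p : ℝ) + 2) / 2 * a * (1 / (32 * Pr) / ((p : ℝ) + 3)) := by
      have e : ((p : ℝ) + 2) / 2 * a * (1 / (32 * Pr) / ((p : ℝ) + 3)) =
          (((p : ℝ) + 2) / ((p : ℝ) + 3)) * (1 / 64) * (a / Pr) := by
        have hp0 : ((p : ℝ) + 3) ≠ 0 := by positivity
        have hP0 : Pr ≠ 0 := hPr0.ne'
        field_simp
        ring
      rw [e]
      refine mul_le_mul_of_nonneg_right ?_ (by positivity)
      have h2 : (4 / 5 : ℝ) ≤ ((p : ℝ) + 2) / ((p : ℝ) + 3) := by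
        rw [le_div_iff₀ (by positivity)]
        linarith
      linarith
    have h3 : a / (200 * Pr) = (1 / 200 : ℝ) * (a / Pr) := by
      field_simp
    have h4 : a / (400 * Pr) = (1 / 400 : ℝ) * (a / Pr) := by
      field_simp
    have h5 : 0 ≤ a / Pr := by positivity
    rw [hA1]
    rw [h3] at hlarge ⊢
    rw [h4]
    nlinarith
  have hb2 : a / 4 + Z0 + (a / (400 * Pr) + C) ≤ ((p : ℝ) + 2) / 2 * a := by
    have h1 : a / (400 * Pr) ≤ a / 2 := by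
      rw [div_le_iff₀ (by positivity)]
      nlinarith
    have h2 : a / (200 * Pr) ≤ a := by
      rw [div_le_iff₀ (by positivity)]
      nlinarith
    nlinarith
  have hfin1 := mul_le_mul_of_nonneg_right hb1 hDN0
  have hfin2 := mul_le_mul_of_nonneg_right hb2 hDZ0
  have hgoal : ∑ z ∈ S, (((nb G (univ \ S) z).card).choose 2 : ℝ) +
        ∑ u ∈ S, ((dl G p r a S u : ℝ) * (dl G p r a S u - 1)) / 2 +
        ∑ q ∈ univ \ S, (kc G (nb G S q) 2 : ℝ) +
        (a / (400 * Pr) + C) * ∑ u ∈ S, δ u ≤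
      ((p : ℝ) + 2) / 2 * a * ∑ u ∈ S, δ u := by
    rw [hsplit]
    nlinarith
  exact hgoal

end Pool.LD7
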